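import Pool.Agent.Helper43.CK3.CH
import Pool.Agent.Helper20.CKP.IsoK

/-!
Continuous singular values of matrices with three rows.
-/

set_option autoImplicit false

namespace Pool.Agent.Helper43.CK3

open Matrix Module Pool.Agent.Helper20.CK3 Pool.Agent.Helper20.CKP

section Norm

open scoped Matrix.Norms.L2Operator

variable {K : Type} [RCLike K]

/-- The operator norm of a `3 × 3` matrix. -/
noncomputable def opN (A : Matrix (Fin 3) (Fin 3) K) : ℝ := ‖A‖

theorem opN_continuous :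
    @Continuous (Matrix (Fin 3) (Fin 3) K) ℝ instTopologicalSpaceMatrix _ opN :=
  continuous_norm

theorem opN_diagonal (v : Fin 3 → K) : opN (diagonal v) = ‖v‖ := l2_opNorm_diagonal v

theorem opN_conj {U : Matrix (Fin 3) (Fin 3) K} (hU : U * Uᴴ = 1) (A : Matrix (Fin 3) (Fin 3) K) :
    opN (U * A * Uᴴ) = opN A := by
  have hm : U ∈ unitaryGroup (Fin 3) K := mem_unitaryGroup_iff.2 hU
  have h1 : ‖U * A * Uᴴ‖ = ‖U * A‖ :=
    CStarRing.norm_mul_mem_unitary (U * A) (Unitary.star_mem hm)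
  have h2 : ‖U * A‖ = ‖A‖ := CStarRing.norm_mem_unitary_mul A hm
  rw [opN, opN, h1, h2]

end Norm

section Main

variable {K : Type} [RCLike K] {n : ℕ}

theorem dg_mul (hn : 3 ≤ n) (s : Fin 3 → ℝ) :
    dg K n s * (dg K n s)ᴴ = diagonal fun i => ((s i ^ 2 : ℝ) : K) := by
  ext i j
  rw [Matrix.mul_apply, Finset.sum_eq_single (Fin.castLE hn i)]
  · rw [conjTranspose_apply, dg, of_apply, of_apply, diagonal_apply]
    by_cases h : i = j
    · subst h
      simp [sq]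
    · have : ¬ ((j : ℕ) = (i : ℕ)) := fun h' => h (Fin.ext h').symm
      simp [h, this]
  · intro k _ hk
    have : ¬ ((i : ℕ) = (k : ℕ)) := fun h => hk (Fin.ext h.symm)
    simp [dg, this]
  · intro h
    exact absurd (Finset.mem_univ _) h

/-- The Gram matrix in terms of the singular values. -/
theorem gram_eq (hn : 3 ≤ n) {B : Matrix (Fin 3) (Fin n) K} {s : Fin 3 → ℝ}
    (h : Cj B (dg K n s)) : ∃ U : Matrix (Fin 3) (Fin 3) K, U * Uᴴ = 1 ∧ Uᴴ * U = 1 ∧
      B * Bᴴ = U * diagonal (fun i => ((s i ^ 2 : ℝ) : K)) * Uᴴ := by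
  obtain ⟨U, W, hU, hW, rfl⟩ := h
  refine ⟨U, hU, mul_eq_one_comm.1 hU, ?_⟩
  rw [← dg_mul hn s]
  simp only [conjTranspose_mul, Matrix.mul_assoc]
  rw [← Matrix.mul_assoc W, hW, Matrix.one_mul]

/-- The candidates. -/
noncomputable def sv (B : Matrix (Fin 3) (Fin n) K) : Fin 3 → ℝ :=
  ![Real.sqrt (opN (B * Bᴴ)),
    Real.sqrt (RCLike.re (B * Bᴴ).trace - opN (B * Bᴴ) -
      (opN (B * Bᴴ) - opN ((opN (B * Bᴴ) : K) • (1 : Matrix (Fin 3) (Fin 3) K) - B * Bᴴ))),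
    Real.sqrt (opN (B * Bᴴ) - opN ((opN (B * Bᴴ) : K) • (1 : Matrix (Fin 3) (Fin 3) K) - B * Bᴴ))]

theorem sv_continuous : Continuous (sv : Matrix (Fin 3) (Fin n) K → Fin 3 → ℝ) := by
  have hg : Continuous fun B : Matrix (Fin 3) (Fin n) K => B * Bᴴ :=
    continuous_id.matrix_mul (continuous_id.matrix_conjTranspose)
  have h0 : Continuous fun B : Matrix (Fin 3) (Fin n) K => opN (B * Bᴴ) := opN_continuous.comp hg
  have h1' : Continuous fun B : Matrix (Fin 3) (Fin n) K =>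
      (opN (B * Bᴴ) : K) • (1 : Matrix (Fin 3) (Fin 3) K) - B * Bᴴ := by
    have hc : Continuous fun B : Matrix (Fin 3) (Fin n) K => ((opN (B * Bᴴ) : ℝ) : K) :=
      RCLike.continuous_ofReal.comp h0
    have h1 : Continuous fun _ : Matrix (Fin 3) (Fin n) K => (1 : Matrix (Fin 3) (Fin 3) K) :=
      continuous_const
    exact (hc.smul h1).sub hg
  have h1 : Continuous fun B : Matrix (Fin 3) (Fin n) K =>
      opN ((opN (B * Bᴴ) : K) • (1 : Matrix (Fin 3) (Fin 3) K) - B * Bᴴ) :=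
    opN_continuous.comp h1'
  have h2 : Continuous fun B : Matrix (Fin 3) (Fin n) K => RCLike.re (B * Bᴴ).trace :=
    RCLike.continuous_re.comp hg.matrix_trace
  rw [continuous_pi_iff]
  intro i
  fin_cases i
  · exact Real.continuous_sqrt.comp h0
  · exact Real.continuous_sqrt.comp ((h2.sub h0).sub (h0.sub h1))
  · exact Real.continuous_sqrt.comp (h0.sub h1)

theorem norm_triple {a b c : ℝ} (hab : b ≤ a) (hbc : c ≤ b) (hc : 0 ≤ c) :
    ‖(fun i => ((![a, b, c] i : ℝ) : K) : Fin 3 → K)‖ = a := by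
  have ha : 0 ≤ a := hc.trans (hbc.trans hab)
  apply le_antisymm
  · rw [pi_norm_le_iff_of_nonneg ha]
    intro i
    rw [RCLike.norm_ofReal]
    fin_cases i
    · simp [abs_of_nonneg ha]
    · simp [abs_of_nonneg (hc.trans hbc), hab]
    · simp [abs_of_nonneg hc, hbc.trans hab]
  · have := norm_le_pi_norm (fun i => ((![a, b, c] i : ℝ) : K) : Fin 3 → K) 0
    simpa [abs_of_nonneg ha] using this

/-- Uniqueness. -/
theorem sv_unique (hn : 3 ≤ n) {B : Matrix (Fin 3) (Fin n) K} {s : Fin 3 → ℝ} (h : IsSing B s) :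
    s = sv B := by
  obtain ⟨U, hU, hU', hA⟩ := gram_eq hn h.conj
  have h01 : s 1 ≤ s 0 := h.anti (by decide)
  have h12 : s 2 ≤ s 1 := h.anti (by decide)
  have h2 : 0 ≤ s 2 := h.nonneg 2
  have h1 : 0 ≤ s 1 := h.nonneg 1
  have h0 : 0 ≤ s 0 := h.nonneg 0
  have e0 : opN (B * Bᴴ) = s 0 ^ 2 := by
    rw [hA, opN_conj hU, opN_diagonal]
    have := norm_triple (K := K) (a := s 0 ^ 2) (b := s 1 ^ 2) (c := s 2 ^ 2)
      (pow_le_pow_left₀ h1 h01 2) (pow_le_pow_left₀ h2 h12 2) (sq_nonneg _)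
    rw [← this]
    congr 1
    funext i
    fin_cases i <;> rfl
  have e2 : opN ((opN (B * Bᴴ) : K) • (1 : Matrix (Fin 3) (Fin 3) K) - B * Bᴴ) =
      s 0 ^ 2 - s 2 ^ 2 := by
    have h3 : ((opN (B * Bᴴ) : K) • (1 : Matrix (Fin 3) (Fin 3) K) - B * Bᴴ) =
        U * diagonal (fun i => ((s 0 ^ 2 - s i ^ 2 : ℝ) : K)) * Uᴴ := by
      rw [e0, hA]
      have h4 : diagonal (fun i => ((s 0 ^ 2 - s i ^ 2 : ℝ) : K)) =
          ((s 0 ^ 2 : ℝ) : K) • (1 : Matrix (Fin 3) (Fin 3) K) -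
            diagonal (fun i => ((s i ^ 2 : ℝ) : K)) := by
        ext i j
        by_cases hij : i = j
        · subst hij
          simp
        · simp [hij]
      rw [h4, Matrix.mul_sub, Matrix.sub_mul, Matrix.mul_smul, Matrix.mul_one, Matrix.smul_mul, hU]
    rw [h3, opN_conj hU, opN_diagonal]
    have h5 : s 2 ^ 2 ≤ s 1 ^ 2 := pow_le_pow_left₀ h2 h12 2
    have h6 : s 1 ^ 2 ≤ s 0 ^ 2 := pow_le_pow_left₀ h1 h01 2
    apply le_antisymm
    · rw [pi_norm_le_iff_of_nonneg (by linarith)]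
      intro i
      rw [RCLike.norm_ofReal, abs_le]
      have h7 : s 2 ^ 2 ≤ s i ^ 2 ∧ s i ^ 2 ≤ s 0 ^ 2 := by
        fin_cases i
        · exact ⟨h5.trans h6, le_refl _⟩
        · exact ⟨h5, h6⟩
        · exact ⟨le_refl _, h5.trans h6⟩
      constructor
      · linarith [h7.2]
      · linarith [h7.1]
    · have h8 := norm_le_pi_norm (fun i => ((s 0 ^ 2 - s i ^ 2 : ℝ) : K) : Fin 3 → K) 2
      rw [RCLike.norm_ofReal, abs_of_nonneg (by linarith)] at h8
      exact h8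
  have e1 : RCLike.re (B * Bᴴ).trace = s 0 ^ 2 + s 1 ^ 2 + s 2 ^ 2 := by
    rw [hA, Matrix.trace_mul_comm, ← Matrix.mul_assoc, hU', Matrix.one_mul, Matrix.trace_diagonal,
      Fin.sum_univ_three]
    simp
  funext i
  rw [sv, e2, e1, e0]
  fin_cases i
  · exact (Real.sqrt_sq h0).symm
  · show s 1 = Real.sqrt (s 0 ^ 2 + s 1 ^ 2 + s 2 ^ 2 - s 0 ^ 2 - (s 0 ^ 2 - (s 0 ^ 2 - s 2 ^ 2)))
    rw [show s 0 ^ 2 + s 1 ^ 2 + s 2 ^ 2 - s 0 ^ 2 - (s 0 ^ 2 - (s 0 ^ 2 - s 2 ^ 2)) = s 1 ^ 2 by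
      ring, Real.sqrt_sq h1]
  · show s 2 = Real.sqrt (s 0 ^ 2 - (s 0 ^ 2 - s 2 ^ 2))
    rw [show s 0 ^ 2 - (s 0 ^ 2 - s 2 ^ 2) = s 2 ^ 2 by ring, Real.sqrt_sq h2]

open scoped ComplexOrder in
theorem exists_sing (hn : 3 ≤ n) (B : Matrix (Fin 3) (Fin n) K) : ∃ s, IsSing B s := by
  have hH : (B * Bᴴ).IsHermitian := Matrix.isHermitian_mul_conjTranspose_self B
  set U := (hH.eigenvectorUnitary : Matrix (Fin 3) (Fin 3) K) with hUdef
  have hU : U * Uᴴ = 1 := mem_unitaryGroup_iff.1 hH.eigenvectorUnitary.2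
  have hU' : Uᴴ * U = 1 := mem_unitaryGroup_iff'.1 hH.eigenvectorUnitary.2
  have hs : B * Bᴴ = U * diagonal (fun i => ((hH.eigenvalues i : ℝ) : K)) * Uᴴ := by
    have := hH.spectral_theorem
    rw [Unitary.conjStarAlgAut_apply] at this
    exact this
  have hp : ∀ i, 0 ≤ hH.eigenvalues i := by
    have hpos : (B * Bᴴ).PosSemidef := Matrix.posSemidef_self_mul_conjTranspose B
    exact fun i => hpos.eigenvalues_nonneg i
  set p := hH.eigenvalues with hpdef
  let t : Fin 3 → ℝ := fun i => Real.sqrt (p i)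
  have ht : ∀ i, t i ^ 2 = p i := fun i => Real.sq_sqrt (hp i)
  have h1 : B * Bᴴ = (U * dg K n t) * (U * dg K n t)ᴴ := by
    rw [conjTranspose_mul, Matrix.mul_assoc, ← Matrix.mul_assoc (dg K n t), dg_mul hn, hs,
      Matrix.mul_assoc]
    simp only [ht]
  obtain ⟨W, hW, hB⟩ := exists_unitary h1
  have hCj : Cj B (dg K n t) := ⟨U, W, hU, hW, hB⟩
  let σ : Equiv.Perm (Fin 3) := Tuple.sort (fun i => -t i)
  have hσ : Monotone ((fun i => -t i) ∘ σ) := Tuple.monotone_sort _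
  refine ⟨fun i => t (σ i), ?_, fun i => Real.sqrt_nonneg _, ?_⟩
  · intro i j hij
    have := hσ hij
    simpa using this
  · have hw := s_WY K n hn σ (fun _ => 1) t (fun _ => Or.inl rfl)
    simp only [one_mul] at hw
    exact Cj.trans hCj (Cj.symm hw)

end Main

/-- Continuous singular values. -/
theorem s_SV : S_SV := by
  intro K _ n hn
  have hs : ∀ B : Matrix (Fin 3) (Fin n) K, IsSing B (sv B) := by
    intro B
    obtain ⟨s, h⟩ := exists_sing hn B
    rw [← sv_unique hn h]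
    exact h
  refine ⟨sv, sv_continuous, hs, fun B s h => sv_unique hn h, ?_⟩
  intro B
  obtain ⟨U, hU, hU', hA⟩ := gram_eq hn (hs B).conj
  set s := sv B with hsdef
  set D : Matrix (Fin 3) (Fin 3) K := diagonal (fun i => ((s i ^ 2 : ℝ) : K)) with hD
  have hmul : ∀ X Y : Matrix (Fin 3) (Fin 3) K, U * X * Uᴴ * (U * Y * Uᴴ) = U * (X * Y) * Uᴴ := by
    intro X Y
    simp only [Matrix.mul_assoc]
    rw [← Matrix.mul_assoc Uᴴ U, hU', Matrix.one_mul]
  have hz : D * D * D - ((∑ i, s i ^ 2 : ℝ) : K) • (D * D) +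
      ((s 0 ^ 2 * s 1 ^ 2 + s 0 ^ 2 * s 2 ^ 2 + s 1 ^ 2 * s 2 ^ 2 : ℝ) : K) • D -
        ((s 0 ^ 2 * s 1 ^ 2 * s 2 ^ 2 : ℝ) : K) • 1 = 0 := by
    rw [hD, diagonal_mul_diagonal, diagonal_mul_diagonal, ← diagonal_one, Fin.sum_univ_three]
    ext i j
    by_cases hij : i = j
    · subst hij
      simp only [Matrix.sub_apply, Matrix.add_apply, Matrix.smul_apply, diagonal_apply_eq,
        smul_eq_mul, Matrix.zero_apply]
      have h3 : s i = s 0 ∨ s i = s 1 ∨ s i = s 2 := by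
        fin_cases i
        · exact Or.inl rfl
        · exact Or.inr (Or.inl rfl)
        · exact Or.inr (Or.inr rfl)
      push_cast
      rcases h3 with h | h | h <;> rw [h] <;> ring
    · simp [hij]
  have hf : ∀ c1 c2 c3 : K, U * (D * D * D) * Uᴴ - c1 • (U * (D * D) * Uᴴ) + c2 • (U * D * Uᴴ) -
      c3 • 1 = U * (D * D * D - c1 • (D * D) + c2 • D - c3 • 1) * Uᴴ := by
    intro c1 c2 c3
    simp only [Matrix.mul_sub, Matrix.mul_add, Matrix.sub_mul, Matrix.add_mul, Matrix.mul_smul,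
      Matrix.smul_mul, Matrix.mul_one, hU]
  rw [hA, hmul, hmul, hf, hz, Matrix.mul_zero, Matrix.zero_mul]

end Pool.Agent.Helper43.CK3
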