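import Pool.Agent.Helper20.CK3.Stmts

/-!
Permutations and signs; the chamber lemma.
-/

set_option autoImplicit false

namespace Pool.Agent.Helper43.CK3

open Matrix Module Pool.Agent.Helper20.CK3

/-- A continuous function without zero on a preconnected space has a constant sign. -/
theorem pos_iff {X : Type} [TopologicalSpace X] [PreconnectedSpace X] (f : X → ℝ)
    (hf : Continuous f) (h0 : ∀ x, f x ≠ 0) (x y : X) (h : 0 < f x) : 0 < f y := by
  by_contra hy
  have hp : IsPreconnected (Set.range f) := isPreconnected_range hf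
  have : (0 : ℝ) ∈ Set.range f :=
    hp.ordConnected.out ⟨y, rfl⟩ ⟨x, rfl⟩ ⟨not_lt.1 hy, h.le⟩
  obtain ⟨z, hz⟩ := this
  exact h0 z hz

/-- The orbit of `ν` under permutations and sign changes. -/
def Orb (ν : Fin 3 → ℝ) (a b c : ℝ) : Prop :=
  ∃ (π : Equiv.Perm (Fin 3)) (ε : Fin 3 → ℝ), (∀ i, ε i = 1 ∨ ε i = -1) ∧
    a = ε 0 * ν (π 0) ∧ b = ε 1 * ν (π 1) ∧ c = ε 2 * ν (π 2)

theorem Orb.swap01 {ν : Fin 3 → ℝ} {a b c : ℝ} (h : Orb ν a b c) : Orb ν b a c := by
  obtain ⟨π, ε, hε, ha, hb, hc⟩ := h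
  refine ⟨π * Equiv.swap 0 1, ε ∘ Equiv.swap 0 1, fun i => hε _, ?_, ?_, ?_⟩
  · simpa using hb
  · simpa using ha
  · have : (Equiv.swap (0 : Fin 3) 1) 2 = 2 := by decide
    simpa [this] using hc

theorem Orb.swap12 {ν : Fin 3 → ℝ} {a b c : ℝ} (h : Orb ν a b c) : Orb ν a c b := by
  obtain ⟨π, ε, hε, ha, hb, hc⟩ := h
  refine ⟨π * Equiv.swap 1 2, ε ∘ Equiv.swap 1 2, fun i => hε _, ?_, ?_, ?_⟩
  · have : (Equiv.swap (1 : Fin 3) 2) 0 = 0 := by decide
    simpa [this] using ha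
  · simpa using hc
  · simpa using hb

theorem Orb.neg2 {ν : Fin 3 → ℝ} {a b c : ℝ} (h : Orb ν a b c) : Orb ν a b (-c) := by
  obtain ⟨π, ε, hε, ha, hb, hc⟩ := h
  refine ⟨π, ![ε 0, ε 1, -ε 2], ?_, by simpa using ha, by simpa using hb, by simp [hc]⟩
  intro i
  fin_cases i
  · exact hε 0
  · exact hε 1
  · rcases hε 2 with h | h <;> simp [h]

/-- The chamber lemma: a connected family of singular values which meets no conjugate of the plane
orthogonal to `ν` misses a wall. -/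
theorem chamber {X : Type} [TopologicalSpace X] [PreconnectedSpace X] (σ : X → Fin 3 → ℝ)
    (hσ : Continuous σ) (ν : Fin 3 → ℝ)
    (hν : ∀ x, ∀ (π : Equiv.Perm (Fin 3)) (ε : Fin 3 → ℝ), (∀ i, ε i = 1 ∨ ε i = -1) →
      ∑ i, ε i * ν (π i) * σ x i ≠ 0) :
    (∀ x, σ x 0 ≠ σ x 1) ∨ (∀ x, σ x 1 ≠ σ x 2) ∨ ∀ x, σ x 2 ≠ 0 := by
  by_contra hcon
  push Not at hcon
  obtain ⟨⟨x, hx⟩, ⟨y, hy⟩, ⟨z, hz⟩⟩ := hcon
  -- the linear forms
  have hne : ∀ a b c, Orb ν a b c → ∀ w, a * σ w 0 + b * σ w 1 + c * σ w 2 ≠ 0 := by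
    rintro a b c ⟨π, ε, hε, ha, hb, hc⟩ w
    have := hν w π ε hε
    rw [Fin.sum_univ_three] at this
    rwa [ha, hb, hc]
  have hc0 : ∀ i, Continuous fun w => σ w i := fun i => (continuous_apply i).comp hσ
  have hs : ∀ a b c, Orb ν a b c → ∀ v w, 0 < a * σ v 0 + b * σ v 1 + c * σ v 2 →
      0 < a * σ w 0 + b * σ w 1 + c * σ w 2 := by
    intro a b c h v w
    refine pos_iff (fun w => a * σ w 0 + b * σ w 1 + c * σ w 2) ?_ (hne a b c h) v w
    exact ((continuous_const.mul (hc0 0)).add (continuous_const.mul (hc0 1))).add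
      (continuous_const.mul (hc0 2))
  -- the three generators
  have hA : ∀ a b c, Orb ν a b c → (0 < a * σ x 0 + b * σ x 1 + c * σ x 2) →
      0 < b * σ x 0 + a * σ x 1 + c * σ x 2 := by
    intro a b c _ h
    rw [← hx] at h ⊢
    linarith
  have hB : ∀ a b c, Orb ν a b c → (0 < a * σ x 0 + b * σ x 1 + c * σ x 2) →
      0 < a * σ x 0 + c * σ x 1 + b * σ x 2 := by
    intro a b c ho h
    apply hs a c b ho.swap12 y x
    have := hs a b c ho x y h
    rw [← hy] at this ⊢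
    linarith
  have hC : ∀ a b c, Orb ν a b c → (0 < a * σ x 0 + b * σ x 1 + c * σ x 2) →
      0 < a * σ x 0 + b * σ x 1 + (-c) * σ x 2 := by
    intro a b c ho h
    apply hs a b (-c) ho.neg2 z x
    have := hs a b c ho x z h
    rw [hz] at this ⊢
    linarith
  -- sign change of the second and of the first coordinate
  have hC1 : ∀ a b c, Orb ν a b c → (0 < a * σ x 0 + b * σ x 1 + c * σ x 2) →
      0 < a * σ x 0 + (-b) * σ x 1 + c * σ x 2 := by
    intro a b c ho h
    exact hB _ _ _ ho.swap12.neg2 (hC _ _ _ ho.swap12 (hB _ _ _ ho h))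
  have ho1 : ∀ {a b c}, Orb ν a b c → Orb ν a (-b) c := fun ho => ho.swap12.neg2.swap12
  have hC0 : ∀ a b c, Orb ν a b c → (0 < a * σ x 0 + b * σ x 1 + c * σ x 2) →
      0 < (-a) * σ x 0 + b * σ x 1 + c * σ x 2 := by
    intro a b c ho h
    exact hA _ _ _ (ho1 ho.swap01) (hC1 _ _ _ ho.swap01 (hA _ _ _ ho h))
  have ho0 : ∀ {a b c}, Orb ν a b c → Orb ν (-a) b c := fun ho => (ho1 ho.swap01).swap01
  have hall : ∀ a b c, Orb ν a b c → (0 < a * σ x 0 + b * σ x 1 + c * σ x 2) → False := by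
    intro a b c ho h
    have h3 := hC0 _ _ _ (ho1 ho.neg2) (hC1 _ _ _ ho.neg2 (hC _ _ _ ho h))
    linarith
  have hbase : Orb ν (ν 0) (ν 1) (ν 2) :=
    ⟨1, fun _ => 1, fun _ => Or.inl rfl, by simp, by simp, by simp⟩
  rcases lt_or_gt_of_ne (hne _ _ _ hbase x) with h | h
  · exact hall _ _ _ (ho0 (ho1 hbase.neg2)) (by linarith)
  · exact hall _ _ _ hbase h


section Conj

variable {K : Type} [RCLike K] {n : ℕ}

theorem Cj.symm {B C : Matrix (Fin 3) (Fin n) K} (h : Cj B C) : Cj C B := by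
  obtain ⟨U, W, hU, hW, rfl⟩ := h
  have hU' : Uᴴ * U = 1 := mul_eq_one_comm.1 hU
  refine ⟨Uᴴ, Wᴴ, by simpa using hU', ?_, ?_⟩
  · rw [conjTranspose_conjTranspose]
    exact mul_eq_one_comm.1 hW
  · rw [Matrix.mul_assoc U C W, ← Matrix.mul_assoc Uᴴ U, hU', Matrix.one_mul, Matrix.mul_assoc, hW,
      Matrix.mul_one]

theorem Cj.trans {B C D : Matrix (Fin 3) (Fin n) K} (h : Cj B C) (h' : Cj C D) : Cj B D := by
  obtain ⟨U, W, hU, hW, rfl⟩ := h
  obtain ⟨U', W', hU', hW', rfl⟩ := h'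
  refine ⟨U * U', W' * W, ?_, ?_, ?_⟩
  · rw [conjTranspose_mul, Matrix.mul_assoc, ← Matrix.mul_assoc U', hU', Matrix.one_mul, hU]
  · rw [conjTranspose_mul, Matrix.mul_assoc, ← Matrix.mul_assoc W, hW, Matrix.one_mul, hW']
  · simp only [Matrix.mul_assoc]

end Conj

/-- Permutations and signs. -/
theorem s_WY : S_WY := by
  intro K _ n hn e η s hη
  let ι : Fin 3 ↪ Fin n := Fin.castLEEmb hn
  let f : Equiv.Perm (Fin n) := e.viaEmbedding ι
  have hf : ∀ i, f (ι i) = ι (e i) := fun i => Equiv.Perm.viaEmbedding_apply e ι i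
  refine ⟨diagonal (fun i => ((η i : ℝ) : K)) * (1 : Matrix (Fin 3) (Fin 3) K).submatrix e id,
    (1 : Matrix (Fin n) (Fin n) K).submatrix id f, ?_, ?_, ?_⟩
  · rw [conjTranspose_mul, conjTranspose_submatrix, conjTranspose_one, Matrix.mul_assoc,
      ← Matrix.mul_assoc ((1 : Matrix (Fin 3) (Fin 3) K).submatrix e id)]
    have h1 : (1 : Matrix (Fin 3) (Fin 3) K).submatrix e id *
        (1 : Matrix (Fin 3) (Fin 3) K).submatrix id e = 1 := by
      ext i j
      simp [Matrix.mul_apply, Matrix.one_apply]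
    rw [h1, Matrix.one_mul, diagonal_conjTranspose, diagonal_mul_diagonal]
    ext i j
    rw [diagonal_apply, Matrix.one_apply]
    split_ifs with h
    · rcases hη i with h | h <;> simp [h]
    · rfl
  · rw [conjTranspose_submatrix, conjTranspose_one]
    ext i j
    rw [Matrix.mul_apply, Finset.sum_eq_single (f.symm i)]
    · simp [Matrix.one_apply]
    · intro k _ hk
      have : i ≠ f k := fun h => hk (by rw [h, Equiv.symm_apply_apply])
      simp [Matrix.one_apply, this]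
    · intro h
      exact absurd (Finset.mem_univ _) h
  · have hP : ∀ M : Matrix (Fin 3) (Fin n) K, (1 : Matrix (Fin 3) (Fin 3) K).submatrix e id * M =
        M.submatrix e id := by
      intro M
      ext i j
      simp [Matrix.mul_apply, Matrix.one_apply]
    have hQ : ∀ M : Matrix (Fin 3) (Fin n) K, M * (1 : Matrix (Fin n) (Fin n) K).submatrix id f =
        M.submatrix id f := by
      intro M
      ext i j
      simp [Matrix.mul_apply, Matrix.one_apply]
    have hij : ∀ (i : Fin 3) (j : Fin n), ((e i : Fin 3) : ℕ) = (f j : ℕ) ↔ (i : ℕ) = (j : ℕ) := by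
      intro i j
      have h1 : ((e i : Fin 3) : ℕ) = (f j : ℕ) ↔ ι (e i) = f j := by
        rw [Fin.ext_iff]
        rfl
      have h2 : (i : ℕ) = (j : ℕ) ↔ ι i = j := by
        rw [Fin.ext_iff]
        rfl
      rw [h1, h2, ← hf, f.apply_eq_iff_eq]
    rw [hQ, Matrix.mul_assoc, hP]
    ext i j
    rw [submatrix_apply, diagonal_mul, submatrix_apply]
    simp only [dg, of_apply, id_eq, hij]
    by_cases h : (i : ℕ) = (j : ℕ)
    · rw [if_pos h, if_pos h, RCLike.ofReal_mul]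
    · rw [if_neg h, if_neg h, mul_zero]

/-- The chambers. -/
theorem s_CH (hsv : S_SV) : S_CH := by
  intro K _ n hn E _ _ _ _ _ _ _ hE F hF ν hν0 hν
  obtain ⟨sg, hsc, hss, hsu, -⟩ := hsv K n hn
  let X : Set E := {0}ᶜ
  have hX : IsPreconnected X :=
    (isConnected_compl_singleton_of_one_lt_rank (by
      have := finrank_eq_rank ℝ E
      rw [← this]
      exact_mod_cast hE) (0 : E)).isPreconnected
  have : PreconnectedSpace X := Subtype.preconnectedSpace hX
  have hcont : Continuous fun x : X => sg (F x) := hsc.comp (continuousOn_iff_continuous_domRestrict.1 hF)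
  have key := chamber (fun x : X => sg (F x)) hcont ν (by
    intro x π ε hε h0
    refine hν x x.2 (fun j => (ε (π⁻¹ j)) * sg (F x) (π⁻¹ j)) ?_ ?_
    · rw [← h0, ← Equiv.sum_comp π]
      refine Finset.sum_congr rfl fun i _ => ?_
      rw [show π⁻¹ (π i) = i from π.symm_apply_apply i]
      ring
    · exact Cj.trans (hss (F x)).conj
        (Cj.symm (s_WY K n hn π⁻¹ (fun j => ε (π⁻¹ j)) (sg (F x)) fun i => hε _)))
  rcases key with h | h | h
  · refine Or.inl fun x hx s hs => ?_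
    rw [hsu _ _ hs]
    exact lt_of_le_of_ne ((hss (F x)).anti (by decide)) (h ⟨x, hx⟩).symm
  · refine Or.inr (Or.inl fun x hx s hs => ?_)
    rw [hsu _ _ hs]
    exact lt_of_le_of_ne ((hss (F x)).anti (by decide)) (h ⟨x, hx⟩).symm
  · refine Or.inr (Or.inr fun x hx s hs => ?_)
    rw [hsu _ _ hs]
    exact lt_of_le_of_ne ((hss (F x)).nonneg 2) (h ⟨x, hx⟩).symm

end Pool.Agent.Helper43.CK3
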